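import Pool.Agent.N361.DC.Def

/-!
# Part MONO: the density of a decreasing property of families decreases with the size (helper849)
-/

set_option autoImplicit false

namespace Pool.Agent.N849.DC

open Finset Pool.Agent.N361.DC

theorem mono : S_MONO := by
  intro X P _ hP m₀ m hm hmX
  have hm0X : m₀ ≤ X.card := hm.trans hmX
  -- double counting
  have h1 : ((powersetCard m X).filter P).card * m.choose m₀ ≤
      ((powersetCard m₀ X).filter P).card * (X.card - m₀).choose (m - m₀) := by
    have e1 : ((powersetCard m X).filter P).card * m.choose m₀ =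
        ∑ B ∈ (powersetCard m X).filter P, (((powersetCard m₀ X).filter P).filter (fun B0 => B0 ⊆ B)).card := by
      rw [← smul_eq_mul, ← sum_const]
      refine sum_congr rfl fun B hB => ?_
      obtain ⟨h2, h3⟩ := mem_filter.1 hB
      obtain ⟨h4, h5⟩ := mem_powersetCard.1 h2
      have e2 : ((powersetCard m₀ X).filter P).filter (fun B0 => B0 ⊆ B) = powersetCard m₀ B := by
        ext B0
        simp only [mem_filter, mem_powersetCard]
        constructor
        · rintro ⟨⟨⟨-, h6⟩, -⟩, h7⟩
          exact ⟨h7, h6⟩
        · rintro ⟨h7, h6⟩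
          exact ⟨⟨⟨h7.trans h4, h6⟩, hP B h4 h3 B0 h7⟩, h7⟩
      rw [e2, card_powersetCard, h5]
    have e3 : ∑ B ∈ (powersetCard m X).filter P, (((powersetCard m₀ X).filter P).filter (fun B0 => B0 ⊆ B)).card =
        ∑ B0 ∈ (powersetCard m₀ X).filter P, (((powersetCard m X).filter P).filter (fun B => B0 ⊆ B)).card := by
      simp_rw [card_filter (fun B0 : Finset (Finset ℕ) => B0 ⊆ _), card_filter (fun B : Finset (Finset ℕ) => _ ⊆ B)]
      exact sum_comm
    rw [e1, e3, ← smul_eq_mul, ← sum_const]
    refine sum_le_sum fun B0 hB0 => ?_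
    obtain ⟨h2, h3⟩ := mem_filter.1 hB0
    obtain ⟨h4, h5⟩ := mem_powersetCard.1 h2
    have h6 : (powersetCard (m - m₀) (X \ B0)).card = (X.card - m₀).choose (m - m₀) := by
      rw [card_powersetCard, card_sdiff_of_subset h4, h5]
    rw [← h6]
    refine card_le_card_of_injOn (fun B => B \ B0) ?_ ?_
    · intro B hB
      have hB := mem_filter.1 (mem_coe.1 hB)
      obtain ⟨h7, h8⟩ := mem_powersetCard.1 (mem_filter.1 hB.1).1
      rw [mem_coe, mem_powersetCard]
      refine ⟨sdiff_subset_sdiff h7 subset_rfl, ?_⟩
      rw [card_sdiff_of_subset hB.2, h8, h5]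
    · intro B hB B' hB' h
      have hB := (mem_filter.1 (mem_coe.1 hB)).2
      have hB' := (mem_filter.1 (mem_coe.1 hB')).2
      have h9 : B \ B0 = B' \ B0 := h
      rw [← sdiff_union_of_subset hB, ← sdiff_union_of_subset hB', h9]
  rw [card_powersetCard, card_powersetCard]
  have h2 : X.card.choose m * m.choose m₀ = X.card.choose m₀ * (X.card - m₀).choose (m - m₀) :=
    Nat.choose_mul hm
  have h3 : 0 < (X.card - m₀).choose (m - m₀) := Nat.choose_pos (by omega)
  refine Nat.le_of_mul_le_mul_right ?_ h3
  calc ((powersetCard m X).filter P).card * X.card.choose m₀ * (X.card - m₀).choose (m - m₀)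
      = ((powersetCard m X).filter P).card * (X.card.choose m₀ * (X.card - m₀).choose (m - m₀)) := by ring
    _ = ((powersetCard m X).filter P).card * m.choose m₀ * X.card.choose m := by rw [← h2]; ring
    _ ≤ ((powersetCard m₀ X).filter P).card * (X.card - m₀).choose (m - m₀) * X.card.choose m :=
        Nat.mul_le_mul_right _ h1
    _ = _ := by ring

end Pool.Agent.N849.DC
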